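import Mathlib
import Pool.Agent.R449.SqMain

/-!
# MP_071053_nt: an upper bound for the least size of a set covering the first `n` squares

`m(n) ≤ n ^ (1 - c / log log n)` for every `c < (log 2) / 2` and all large `n`.
-/

set_option autoImplicit false

open Filter

namespace Pool.Agent.Results.MP_071053_nt.UpperBound

/-- `A` covers the first `n` squares: each of `1 ^ 2, ..., n ^ 2` is a sum of two elements of `A`
(which may be equal) -/
def Covers (A : Finset ℕ) (n : ℕ) : Prop :=
  ∀ k : ℕ, 1 ≤ k → k ≤ n → ∃ a ∈ A, ∃ b ∈ A, a + b = k ^ 2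

/-- the least size of a finite set of nonnegative integers covering the first `n` squares -/
noncomputable def m (n : ℕ) : ℕ := sInf {c | ∃ A : Finset ℕ, Covers A n ∧ A.card = c}

/-- For every `c < (log 2) / 2` and all large `n`, `m(n) ≤ n ^ (1 - c / log log n)`. -/
theorem result : ∀ c : ℝ, c < Real.log 2 / 2 →
    ∀ᶠ n : ℕ in atTop, (m n : ℝ) ≤ (n : ℝ) ^ (1 - c / Real.log (Real.log n)) := by
  intro c hc
  obtain ⟨ε, hε⟩ : ∃ ε : ℝ, ε = min ((Real.log 2 / 2 - c) / 4) (1 / 4) := ⟨_, rfl⟩
  have hε0 : 0 < ε := by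
    rw [hε]
    exact lt_min (by linarith) (by norm_num)
  have hε1 : ε ≤ 1 / 4 := by rw [hε]; exact min_le_right _ _
  have hε2 : ε ≤ (Real.log 2 / 2 - c) / 4 := by rw [hε]; exact min_le_left _ _
  have hlog : Tendsto (fun n : ℕ => Real.log (Real.log (n : ℝ))) atTop atTop :=
    Real.tendsto_log_atTop.comp (Real.tendsto_log_atTop.comp tendsto_natCast_atTop_atTop)
  filter_upwards [Pool.Agent.R449.SqMain.main ε hε0 hε1, hlog.eventually_gt_atTop 0,
    eventually_ge_atTop 1] with n hn hn2 hn3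
  obtain ⟨A, hA, hAc⟩ := hn
  have h1 : (m n : ℝ) ≤ A.card := by
    have : m n ≤ A.card := Nat.sInf_le ⟨A, hA, rfl⟩
    exact_mod_cast this
  refine h1.trans (hAc.trans ?_)
  apply Real.rpow_le_rpow_of_exponent_le (by exact_mod_cast hn3)
  have h2 : c / Real.log (Real.log n) ≤ (Real.log 2 / 2 - 4 * ε) / Real.log (Real.log n) :=
    div_le_div_of_nonneg_right (by linarith) hn2.le
  linarith

end Pool.Agent.Results.MP_071053_nt.UpperBound
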